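import Pool.Agent.Helper74.FW.Nec
import Pool.Agent.Helper74.FW.MainB

set_option autoImplicit false

/-!
# The f-vectors of clique complexes of any dimension

For every `d` the f-vectors of the clique complexes of dimension `d - 1` are the integer points of
the region `R_d`, up to a boundary layer of relative width `O(f_k ^ (-1 / d))`.
-/

namespace Pool.Agent.Results.MP_5ecb5e_co.AllDimensions

open Pool.Agent.Helper74 Pool.Agent.Helper74.FW

theorem necessary (d : ℕ) (hd : 1 ≤ d) (f : List ℕ) (hlen : f.length = d)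
    (hf : FV.IsFaceVector f) : (fun k : Fin d => (f.getD k 0 : ℝ)) ∈ region d := by
  classical
  obtain ⟨-, V, _, _, G, hG⟩ := hf
  have hcard : ∀ k, (cl G (k + 1)).card = f.getD k 0 := fun k => by rw [card_cl_eq, hG k]
  have hfree : G.CliqueFree (d + 1) := by
    rw [cliqueFree_iff, hcard d]
    exact List.getD_eq_default _ _ (by omega)
  have h := mem_region d hd G hfree
  simp only [hcard] at h
  exact h

theorem result (d : ℕ) (hd : 1 ≤ d) :
    (∀ f : List ℕ, f.length = d → FV.IsFaceVector f →
      (fun k : Fin d => (f.getD k 0 : ℝ)) ∈ region d) ∧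
    ∃ A : Fin d → ℝ, (∀ k, 0 ≤ A k) ∧ (∀ k : Fin d, k.1 + 1 = d → A k = 0) ∧
      ∀ f : List ℕ, f.length = d → (∀ a ∈ f, 0 < a) →
        (fun k : Fin d => (f.getD k 0 : ℝ) - A k * (f.getD k 0 : ℝ) ^ (1 - 1 / (d : ℝ))) ∈
          region d →
        FV.IsFaceVector f :=
  ⟨necessary d hd, suff d hd⟩

end Pool.Agent.Results.MP_5ecb5e_co.AllDimensions
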