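import Pool.Agent.Helper74.FW.MainC

set_option autoImplicit false

/-!
# The f-vectors of dense clique complexes of any dimension

If `f_k ≥ B f_{k-1}` for all `k < d - 1` then the error in the entry `f_k` is at most `A f_{k-1}`.
-/

namespace Pool.Agent.Results.MP_5ecb5e_co.DenseCase

open Pool.Agent.Helper74 Pool.Agent.Helper74.FW

theorem result (d : ℕ) (hd : 1 ≤ d) :
    ∃ (A : Fin d → ℝ) (B : ℝ), (∀ k, 0 ≤ A k) ∧ (∀ k : Fin d, k.1 + 1 = d → A k = 0) ∧
      ∀ f : List ℕ, f.length = d → (∀ a ∈ f, 0 < a) →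
        (∀ k, k + 1 < d → B * ((1 :: f).getD k 0 : ℝ) ≤ (f.getD k 0 : ℝ)) →
        (fun k : Fin d => (f.getD k 0 : ℝ) - A k * ((1 :: f).getD k 0 : ℝ)) ∈ region d →
        FV.IsFaceVector f :=
  dense d hd

end Pool.Agent.Results.MP_5ecb5e_co.DenseCase
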