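import Pool.Agent.Helper74.FV.Main
import Pool.Agent.Helper74.FV.Low

set_option autoImplicit false

/-!
# The f-vectors of two-dimensional clique complexes

The f-vectors `(n, m, t)` of the two-dimensional clique complexes are known up to an error of order
`m` in the number `t` of triangles.
-/

namespace Pool.Agent.Results.MP_5ecb5e_co.TwoDimensional

open Pool.Agent.Helper74.FV

theorem card_cl {V : Type} [Fintype V] [DecidableEq V] (G : SimpleGraph V) (k : ℕ) :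
    (cl G k).card = Nat.card {s : Finset V // G.IsNClique k s} := by
  classical
  rw [Nat.card_eq_fintype_card, Fintype.card_subtype]
  congr 1

theorem necessary (n m t : ℕ) (h : IsFaceVector [n, m, t]) :
    3 * (m : ℝ) ≤ (n : ℝ) ^ 2 ∧ fisher n m ≤ t ∧ (t : ℝ) ≤ ((m : ℝ) / 3) ^ (3 / 2 : ℝ) := by
  classical
  obtain ⟨-, V, _, _, G, hG⟩ := h
  have h1 : (cl G 1).card = n := by
    rw [card_cl]
    exact hG 0
  have h2 : (cl G 2).card = m := by
    rw [card_cl]
    exact hG 1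
  have h3 : (cl G 3).card = t := by
    rw [card_cl]
    exact hG 2
  have h4 : G.CliqueFree 4 := by
    intro s hs
    have h5 : Nat.card {s : Finset V // G.IsNClique 4 s} = 0 := hG 3
    rw [Nat.card_eq_fintype_card, Fintype.card_eq_zero_iff] at h5
    exact h5.elim ⟨s, hs⟩
  have hup := upper h4
  rw [h1, h2, h3] at hup
  refine ⟨hup.1, ?_, ?_⟩
  · exact lower h4 (n := n) (m := m) (t := t) (by rw [h1]) (by rw [h2]) (by rw [h3])
  · have hu0 : (0 : ℝ) ≤ √((m : ℝ) / 3) := Real.sqrt_nonneg _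
    have hu2 : √((m : ℝ) / 3) ^ 2 = (m : ℝ) / 3 := Real.sq_sqrt (by positivity)
    have hu3 : ((m : ℝ) / 3) ^ (3 / 2 : ℝ) = √((m : ℝ) / 3) ^ 3 := by
      conv_lhs => rw [← hu2]
      rw [← Real.rpow_natCast _ 2, ← Real.rpow_mul hu0, ← Real.rpow_natCast _ 3]
      norm_num
    rw [hu3]
    refine le_of_sq_le_sq ?_ (by positivity)
    rw [← pow_mul, mul_comm 3 2, pow_mul, hu2]
    have := hup.2
    linarith

theorem result :
    (∀ n m t : ℕ, IsFaceVector [n, m, t] →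
      3 * (m : ℝ) ≤ (n : ℝ) ^ 2 ∧ fisher n m ≤ t ∧ (t : ℝ) ≤ ((m : ℝ) / 3) ^ (3 / 2 : ℝ)) ∧
    (∀ n m t : ℕ, 10 ≤ n → 1 ≤ t → 3 * m ≤ (n - 10) ^ 2 → fisher (n - 10) m ≤ t →
      (t : ℝ) ≤ ((m : ℝ) / 3) ^ (3 / 2 : ℝ) - m → IsFaceVector [n, m, t]) :=
  ⟨necessary, main⟩

end Pool.Agent.Results.MP_5ecb5e_co.TwoDimensional
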