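import Pool.Agent.Helper74.FW.MainU

set_option autoImplicit false

/-!
# A sufficient condition of Kruskal-Katona type with a universal constant
-/

namespace Pool.Agent.Results.MP_5ecb5e_co.UniversalConstant

open Pool.Agent.Helper74 Finset

theorem result (f : List ℕ) (hne : f ≠ []) (hf : ∀ a ∈ f, 0 < a) (x : ℕ → ℝ)
    (hx : ∀ k, 1 ≤ k → k ≤ f.length → (k : ℝ) ≤ x k)
    (hfx : ∀ k, 1 ≤ k → k ≤ f.length →
      (f.getD (k - 1) 0 : ℝ) = (∏ i ∈ range k, (x k - i)) / (k.factorial : ℝ))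
    (h : ∀ k, 1 ≤ k → k < f.length → x (k + 1) ≤ x k / 10) : FV.IsFaceVector f :=
  FW.universal f hne hf x hx hfx h

end Pool.Agent.Results.MP_5ecb5e_co.UniversalConstant
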